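import Pool.Agent.J6H49.OP.Main

/-!
# No optimal proof systems although double exponential space is nearly double exponential time

Optimal and `p`-optimal proof systems exist if `NE = coNE` and `E = NE`, respectively
(Krajicek and Pudlak), even if this is true for the classes with times `2 ^ O(2 ^ n)` only
(Messner and Toran). These proofs relativize. We show that for relativizing proofs the
assumptions cannot be weakened: for an arbitrarily slowly growing unbounded function `α` there are
oracles relative to which all problems in space `2 ^ O(2 ^ n)` are decided in deterministic time
`2 ^ O(2 ^ n * α n)`, likewise for space `2 ^ O(n)` and for polynomial space, and nevertheless no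
set hard for `coNP` has an optimal proof system.

Idea of the proof. The oracle contains a random oracle `A`, codes for polynomial space which are so
long that questions of polynomial length cannot use the strings of `A` of the same length, any
oracle `C`, and a table. The statements of level `j` are wrong with probability about `2 ^ (-j)`.
On a cylinder which the exceptional set nearly fills, a new proof system contains for every length
in a sparse schedule one statement as an axiom, and the level is raised as soon as, given that the
statement is wrong, the given system proves it nevertheless with probability less than `1 / 4`. The
levels, which depend on the whole construction, are stored in the table; the table is a fixed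
point, its entries depend on shorter strings only.
-/

set_option autoImplicit false

namespace Pool.Agent.Results.MP_f0c157_lc.NearCollapseOptimal

open MeasureTheory Pool.Agent.NPC Pool.Agent.H628R3.RO Pool.Agent.J6H49.OP

/-- Let `α : ℕ → ℕ` be nondecreasing and unbounded and let `C` be any oracle. There is a map `O` on
the oracles such that `O A` contains `A` and `C` and is nearly collapsed with the function `α`, for
every `A`, and for a random oracle `A` (fair coin tosses) with probability one, relative to `O A` no
set which is hard for `coNP` has a `p`-optimal or an optimal proof system. -/
theorem result (α : ℕ → ℕ) (hα : Monotone α) (hα' : Filter.Tendsto α Filter.atTop Filter.atTop)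
    (C : Oracle) : ∃ O : Oracle → Oracle,
      (∀ A, NearlyCollapsed α (O A) ∧ Contains (O A) A ∧ Contains (O A) C) ∧
      ∀ᵐ A ∂randomOracle, ∀ L : Set (List Bool), CoNPHardRel (O A) L →
        (¬ ∃ P, IsPOptimal (O A) L P) ∧ (¬ ∃ P, IsOptimal (O A) L P) := by
  obtain ⟨O, h1, h2, -, -⟩ := main α hα hα' C
  refine ⟨O, h1, ?_⟩
  filter_upwards [h2] with A hA L hL
  exact ⟨fun ⟨P, hP⟩ => hA L hL ⟨P, isOptimal_of_isPOptimal hP⟩, hA L hL⟩

end Pool.Agent.Results.MP_f0c157_lc.NearCollapseOptimal
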