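import Pool.Agent.J6H49.KW.POpt
import Pool.Agent.J6H49.ES.Incl

/-!
# Optimal but no `p`-optimal propositional proof systems

Two conditions are known to imply that there is a `p`-optimal propositional proof system: `P = NP`
(problem file) and `E = NE` (Krajicek and Pudlak). We construct oracles relative to which optimal
proof systems exist in the strongest possible sense, for every nonempty problem in polynomial space,
with proofs which are moreover unique (`PSPACE = UP ∩ coUP`), and relative to which both conditions
nearly hold (even for polynomial space and exponential space), and nevertheless there is no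
`p`-optimal proof system for any `coNP`-hard set, and not even for any set which is hard for
`UP ∩ coUP`.

The construction (helper49) is the one of `MP_c56612_lc.UPEqualsPSPACE`.
-/

set_option autoImplicit false

namespace Pool.Agent.Results.MP_f0c157_lc.OptimalNotPOptimal

open Filter Pool.Agent.NPC Pool.Agent.H628R3.RO Pool.Agent.J6H49.OP Pool.Agent.J6H49.IP
open Pool.Agent.H620R2.Gauge (IsPSPACE)
open Pool.Agent.TH678.GC (join)
open Pool.Agent.J6H49.KW (tally)

/-- Hardness for `UP ∩ coUP` relative to `B`, under polynomial-time many-one reductions. -/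
def HardForUPCoUP (B : Oracle) (L : Set (List Bool)) : Prop :=
  ∀ L', IsUP B L' → IsUP B L'ᶜ → Red B L' L

/-- Let `α` and `f` be nondecreasing and unbounded and let `C` be any oracle. There are an oracle `O`
which contains `C` and a tally set `T` with at most `f n` elements of length at most `n` such that

* `O` is nearly collapsed with the function `α`,
* relative to `O`, every language in polynomial space is in `UP` and in `coUP`, it is in `P` if
  `T` is added to the oracle, and it has an optimal proof system if it is not empty,
* relative to `O`, no set which is hard for `UP ∩ coUP`, in particular no `coNP`-hard set, has a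
  `p`-optimal proof system. -/
theorem result (α f : ℕ → ℕ) (hα : Monotone α) (hα' : Tendsto α atTop atTop)
    (hf : Monotone f) (hf' : Tendsto f atTop atTop) (C : Oracle) :
    ∃ (O : Oracle) (T : ℕ → Bool), NearlyCollapsed α O ∧ Contains O C ∧
      (∀ n, ((Finset.range (n + 1)).filter fun m => T m = true).card ≤ f n) ∧
      (∀ L, IsPSPACE O L → IsUP O L ∧ IsUP O Lᶜ ∧ IsP (join O (tally T)) L ∧
        (L.Nonempty → ∃ P, IsOptimal O L P)) ∧
      (∀ L, HardForUPCoUP O L → ¬ ∃ P, IsPOptimal O L P) ∧
      ∀ L, CoNPHardRel O L → ¬ ∃ P, IsPOptimal O L P := by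
  obtain ⟨en, hen⟩ := Pool.Agent.J6H49.KW.exists_algs
  obtain ⟨O, T, X, hW⟩ := Pool.Agent.J6H49.KW.engine hα hα' hf hf' C (I := Set.univ)
    (Filter.Frequently.of_forall fun n => Set.mem_univ n)
    (t := fun a b => Pool.Agent.J6H49.KW.tPO (en a) (en b))
    fun a b => Pool.Agent.J6H49.KW.isTest_PO (en a) (en b)
  have hup := hW.up X (Pool.Agent.J6H49.ES.isPSPACE_of_isNP hW.np)
  have hhard : ∀ L, HardForUPCoUP O L → ¬ ∃ P, IsPOptimal O L P := by
    rintro L hL ⟨P, hP⟩
    exact hW.no_pOptimal_X hen (hP.transfer (hL X hup.1 hup.2) (hW.nonempty hen))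
  refine ⟨O, T, hW.near, hW.cont, hW.dens, fun L hL => ⟨(hW.up L hL).1, (hW.up L hL).2,
    hW.hard L hL, fun hne => ?_⟩, hhard, fun L hL => hhard L fun L' _ h' =>
      hL L' (Pool.Agent.J6H49.KW.isNP_of_isUP h')⟩
  exact Pool.Agent.J6H49.KW.exists_optimal (Pool.Agent.J6H49.KW.isNP_of_isUP (hW.up L hL).1) hne

end Pool.Agent.Results.MP_f0c157_lc.OptimalNotPOptimal
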