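import Pool.Agent.J6H49.ES.World

/-!
# `p`-optimal proof systems for all problems in polynomial space, with `NP` far from `coNP`

If `P = NP` then there is a `p`-optimal propositional proof system, and if `P = PSPACE` then every
nonempty problem in polynomial space has a `p`-optimal proof system. We show that for relativizing
proofs there is no converse, in a strong form: there are oracles relative to which every nonempty
problem in polynomial space has a `p`-optimal proof system, and nevertheless some language in `coNP`
has no interactive proof with polynomially many rounds and private coins (in particular it has no
proof system with polynomially bounded proofs), even if the proof must work only for infinitely many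
input lengths and the verifier may ask questions to any set `T` of subexponential density.
-/

set_option autoImplicit false

namespace Pool.Agent.Results.MP_f0c157_lc.POptimalFarFromCollapse

open MeasureTheory Pool.Agent.NPC Pool.Agent.H628R3.RO Pool.Agent.J6H49.OP Pool.Agent.J6H49.IP
open Pool.Agent.H620R2.Gauge (IsPSPACE)
open Pool.Agent.TH678.GC (join)

/-- Let `C` be any oracle. There is a map `O` on the oracles such that

* for every `A`, `O A` contains `A` and `C`, and relative to `O A` every nonempty problem in
  polynomial space has a `p`-optimal proof system,
* for a random oracle `A` (fair coin tosses), with probability one, there is a language `L` in `coNP`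
  relative to `O A` such that for every set `T` of subexponential density, `L` has no interactive
  proof relative to `O A` and `T` which is correct for infinitely many input lengths. -/
theorem result (C : Oracle) : ∃ O : Oracle → Oracle,
    (∀ A, Contains (O A) A ∧ Contains (O A) C ∧
      ∀ L : Set (List Bool), IsPSPACE (O A) L → L.Nonempty → ∃ P, IsPOptimal (O A) L P) ∧
    ∀ᵐ A ∂randomOracle, ∃ L : Set (List Bool), IsCoNP (O A) L ∧
      ∀ T : Oracle, SubexpDense T → ¬ IsIPio (join (O A) T) L := by
  obtain ⟨O, h1, h2⟩ := Pool.Agent.J6H49.ES.world (fun n => 2 ^ n)
    (fun k => by
      obtain ⟨N, hN⟩ := Pool.Agent.J6H54.RO.poly_le_two_pow (Polynomial.X ^ k)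
      filter_upwards [Filter.eventually_ge_atTop N] with n hn
      have h := hN n hn
      simp only [Polynomial.eval_pow, Polynomial.eval_X] at h
      omega) C
  exact ⟨O, fun A => ⟨(h1 A).2.1, (h1 A).2.2.1, fun L hL hne => (h1 A).2.2.2.pOptimal hL hne⟩, h2⟩

end Pool.Agent.Results.MP_f0c157_lc.POptimalFarFromCollapse
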