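import Pool.Agent.J6H54.RO.FinT

/-!
# No optimal proof systems relative to a random oracle

For almost all oracles `A` (membership of the strings in `A` is decided by independent tosses of a
fair coin): no set which is hard for `coNP` relative to `A`, for instance the set of the
tautologies with gates for `A`, has a `p`-optimal or an optimal proof system relative to `A`. More
precisely, every proof system `P` for such a set is beaten exponentially by another one, `Q`: for
infinitely many `Q`-proofs `w`, all `P`-proofs of the string proved by `w` have length at least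
`2 ^ (|w| / k) - 1`, where `k` does not depend on `w`.

Idea of the proof: the statements of level `j` are wrong with probability about `2 ^ (-j)`. On a
cylinder which the exceptional set nearly fills, `Q` contains for every length in a sparse schedule
one statement as an axiom, and the level is raised as soon as a count over all finite oracles shows
that, given that the statement is wrong, the system `P` proves it nevertheless with probability
less than `1 / 4`.
-/

set_option autoImplicit false

namespace Pool.Agent.Results.MP_f0c157_lc.RandomOracleOptimal

open MeasureTheory Pool.Agent.NPC Pool.Agent.H628R3.RO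

theorem result : ∀ᵐ A ∂randomOracle, ∀ L : Set (List Bool), CoNPHardRel A L →
    (¬ ∃ P, IsPOptimal A L P) ∧ (¬ ∃ P, IsOptimal A L P) ∧
    ∀ P, IsProofSystem A L P → ∃ Q, IsProofSystem A L Q ∧
      ∃ k : ℕ, {w : List Bool | ∀ v, P v = Q w → 2 ^ w.length < (v.length + 1) ^ k}.Infinite := by
  filter_upwards [Pool.Agent.J6H54.RO.final_T] with A hA L hL
  refine ⟨?_, ?_, hA L hL⟩
  · rintro ⟨P, hP, hopt⟩
    obtain ⟨Q, hQ, hb⟩ := hA L hL P hP
    obtain ⟨h, hh, hPQ⟩ := hopt Q hQ
    obtain ⟨b, hb'⟩ := IsFP.length_le hh
    exact Pool.Agent.J6H54.RO.Beats.not_le hb ⟨b, fun w => ⟨h w, hPQ w, hb' w⟩⟩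
  · rintro ⟨P, hP, hopt⟩
    obtain ⟨Q, hQ, hb⟩ := hA L hL P hP
    exact Pool.Agent.J6H54.RO.Beats.not_le hb (hopt Q hQ)

end Pool.Agent.Results.MP_f0c157_lc.RandomOracleOptimal
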